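import Pool.Agent.Helper27.EM.Sheet

/-!
(CF) good approximations are convergents, with numerator and denominator `nums n`, `dens n`.
-/

set_option autoImplicit false

open Filter Finset

namespace Pool.Agent.Helper30.EM

open Pool.Agent.Helper27.EM GenContFract

theorem not_term {ξ : ℝ} (h : Irrational ξ) (n : ℕ) : ¬ (GenContFract.of ξ).TerminatedAt n := by
  intro hn
  obtain ⟨q, hq⟩ := (GenContFract.terminates_iff_rat ξ).1 ⟨n, hn⟩
  exact h ⟨q, hq.symm⟩

theorem exists_int_aux {ξ : ℝ} (h : Irrational ξ) (n : ℕ) :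
    (∃ a b : ℤ, (GenContFract.of ξ).contsAux n = ⟨(a : ℝ), (b : ℝ)⟩) ∧
    (∃ a b : ℤ, (GenContFract.of ξ).contsAux (n + 1) = ⟨(a : ℝ), (b : ℝ)⟩) := by
  induction n with
  | zero =>
    refine ⟨⟨1, 0, by simp⟩, ⟨⌊ξ⌋, 1, ?_⟩⟩
    simp
  | succ n ih =>
    obtain ⟨⟨a, b, h1⟩, ⟨c, d, h2⟩⟩ := ih
    refine ⟨⟨c, d, h2⟩, ?_⟩
    obtain ⟨gp, hgp⟩ : ∃ gp, (GenContFract.of ξ).s.get? n = some gp :=
      Option.ne_none_iff_exists'.mp (not_term h n)
    obtain ⟨ha, z, hz⟩ := GenContFract.of_partNum_eq_one_and_exists_int_partDen_eq hgp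
    refine ⟨z * c + a, z * d + b, ?_⟩
    rw [GenContFract.contsAux_recurrence hgp h1 h2, ha, hz]
    push_cast
    simp

theorem exists_int {ξ : ℝ} (h : Irrational ξ) (n : ℕ) :
    ∃ a b : ℤ, (GenContFract.of ξ).nums n = a ∧ (GenContFract.of ξ).dens n = b := by
  obtain ⟨a, b, hab⟩ := (exists_int_aux h n).2
  refine ⟨a, b, ?_, ?_⟩
  · rw [num_eq_conts_a, nth_cont_eq_succ_nth_contAux, hab]
  · rw [den_eq_conts_b, nth_cont_eq_succ_nth_contAux, hab]

theorem exists_coprime {ξ : ℝ} (h : Irrational ξ) (n : ℕ) :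
    ∃ a b : ℤ, (GenContFract.of ξ).nums n = a ∧ (GenContFract.of ξ).dens n = b ∧ 0 < b ∧
      IsCoprime a b := by
  obtain ⟨a, b, ha, hb⟩ := exists_int h n
  obtain ⟨c, d, hc, hd⟩ := exists_int h (n + 1)
  have hdet : (GenContFract.of ξ).nums n * (GenContFract.of ξ).dens (n + 1) -
      (GenContFract.of ξ).dens n * (GenContFract.of ξ).nums (n + 1) = (-1) ^ (n + 1) :=
    (SimpContFract.of ξ).determinant (not_term h n)
  rw [ha, hb, hc, hd] at hdet
  have hdet' : a * d - b * c = (-1) ^ (n + 1) := by exact_mod_cast hdet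
  have hpos : (0 : ℝ) < b := by
    rw [← hb]
    have h1 : ((Nat.fib (n + 1) : ℕ) : ℝ) ≤ (GenContFract.of ξ).dens n :=
      GenContFract.succ_nth_fib_le_of_nth_den (Or.inr (not_term h (n - 1)))
    have h2 : (0 : ℝ) < ((Nat.fib (n + 1) : ℕ) : ℝ) := by
      exact_mod_cast Nat.fib_pos.2 (Nat.succ_pos n)
    linarith
  refine ⟨a, b, ha, hb, by exact_mod_cast hpos, ⟨(-1) ^ (n + 1) * d, - ((-1) ^ (n + 1) * c), ?_⟩⟩
  have h3 : ((-1 : ℤ) ^ (n + 1)) * ((-1) ^ (n + 1)) = 1 := by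
    rw [← mul_pow]; norm_num
  calc (-1) ^ (n + 1) * d * a + - ((-1) ^ (n + 1) * c) * b
      = (-1) ^ (n + 1) * (a * d - b * c) := by ring
    _ = 1 := by rw [hdet', h3]

theorem CF : ST_CF := by
  intro ξ r hirr hinj hr N
  have hex : ∀ k, ∃ n, (GenContFract.of ξ).convs n = (r k : ℝ) := fun k =>
    Real.exists_convs_eq_rat (hr k)
  choose f hf using hex
  have hfinj : Function.Injective f := by
    intro k l hkl
    apply hinj
    have h1 : (r k : ℝ) = (r l : ℝ) := by rw [← hf k, ← hf l, hkl]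
    exact_mod_cast h1
  obtain ⟨k, hk⟩ : ∃ k, N ≤ f k := by
    by_contra hcon
    push Not at hcon
    have : (Set.range f).Finite := (Set.finite_lt_nat N).subset (by
      rintro _ ⟨k, rfl⟩; exact hcon k)
    exact Set.infinite_range_of_injective hfinj this
  refine ⟨k, f k, hk, ?_⟩
  obtain ⟨a, b, ha, hb, hpos, hcop⟩ := exists_coprime hirr (f k)
  have h1 : (r k : ℝ) = (a : ℝ) / b := by
    rw [← hf k, GenContFract.conv_eq_num_div_den, ha, hb]
  have h2 : r k = (a : ℚ) / b := by exact_mod_cast h1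
  have hnat : Nat.Coprime a.natAbs b.natAbs := Int.isCoprime_iff_gcd_eq_one.1 hcop
  rw [ha, hb, h2]
  constructor
  · exact_mod_cast Rat.num_div_eq_of_coprime hpos hnat
  · exact_mod_cast Rat.den_div_eq_of_coprime hpos hnat

end Pool.Agent.Helper30.EM
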